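import Mathlib
import Pool.Agent.W522.U.B1

/-!
# Congruence of nondegenerate alternating matrices over a field
-/

set_option autoImplicit false

namespace Pool.Agent.Y122.HPDar

open Matrix Module

variable {K : Type} [Field K]

/-- the standard symplectic matrix -/
def jj (K : Type) [Field K] (m : ℕ) : Matrix (Fin m ⊕ Fin m) (Fin m ⊕ Fin m) K :=
  fromBlocks 0 1 (-1) 0

/-- the standard enumeration of `Fin m ⊕ Fin m` -/
def en {m n : ℕ} (h : m + m = n) : Fin m ⊕ Fin m ≃ Fin n :=
  finSumFinEquiv.trans (finCongr h)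

theorem alt_self {n : ℕ} (A : Matrix (Fin n) (Fin n) K) (hA : A.transpose = -A)
    (hA0 : ∀ i, A i i = 0) (v : Fin n → K) : v ⬝ᵥ (A *ᵥ v) = 0 := by
  have h1 : v ⬝ᵥ (A *ᵥ v) = ∑ x : Fin n × Fin n, v x.1 * A x.1 x.2 * v x.2 := by
    rw [Fintype.sum_prod_type]
    simp only [dotProduct, mulVec, Finset.mul_sum, mul_assoc]
  rw [h1]
  refine Finset.sum_involution (fun x _ => (x.2, x.1)) ?_ ?_ ?_ ?_
  · intro x _
    have h2 : A x.2 x.1 = - A x.1 x.2 := by
      have := congrFun (congrFun hA x.1) x.2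
      simpa using this
    simp only [h2]
    ring
  · intro x _ hx h3
    apply hx
    have h4 : x.1 = x.2 := by
      have := congrArg Prod.snd h3
      simpa using this
    rw [h4, hA0]
    ring
  · intro x _
    exact Finset.mem_univ _
  · intro x _
    rfl

theorem alt_swap {n : ℕ} (A : Matrix (Fin n) (Fin n) K) (hA : A.transpose = -A)
    (v w : Fin n → K) : v ⬝ᵥ (A *ᵥ w) = - (w ⬝ᵥ (A *ᵥ v)) := by
  have h1 : w ⬝ᵥ (A *ᵥ v) = v ⬝ᵥ (A.transpose *ᵥ w) := by
    rw [mulVec_transpose, dotProduct_comm v, ← dotProduct_mulVec]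
  rw [h1, hA, neg_mulVec, dotProduct_neg, neg_neg]

theorem canon {n : ℕ} (A : Matrix (Fin n) (Fin n) K) (hA : A.transpose = -A)
    (hA0 : ∀ i, A i i = 0) (hAd : A.det ≠ 0) :
    ∃ (m : ℕ) (h : m + m = n) (U : Matrix (Fin n) (Fin n) K), U.det ≠ 0 ∧
      U * A * U.transpose = reindex (en h) (en h) (jj K m) := by
  classical
  let ω : (Fin n → K) →ₗ[K] (Fin n → K) →ₗ[K] K := Matrix.toLinearMap₂' K A
  have hω : ∀ v w, ω v w = v ⬝ᵥ (A *ᵥ w) := fun v w => Matrix.toLinearMap₂'_apply' A v w
  have hsk : ∀ u v, ω u v = -ω v u := by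
    intro u v
    rw [hω, hω]
    exact alt_swap A hA u v
  have halt : ∀ u, ω u u = 0 := by
    intro u
    rw [hω]
    exact alt_self A hA hA0 u
  have hnd : ∀ z ∈ (⊤ : Submodule K (Fin n → K)), (∀ w ∈ (⊤ : Submodule K (Fin n → K)),
      ω z w = 0) → z = 0 := by
    intro z _ hz
    have h1 : z ᵥ* A = 0 := by
      ext i
      have := hz (Pi.single i 1) trivial
      rw [hω, dotProduct_mulVec] at this
      simpa using this
    exact Matrix.eq_zero_of_vecMul_eq_zero hAd h1
  obtain ⟨m, a, b, la, lb, -, -, haa, hbb, hab, hne, hsp⟩ :=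
    Pool.Agent.W522.U.sb_aux ω hsk halt (fun _ : Unit => (⊤ : Submodule K (Fin n → K)))
      (fun x => x) (fun _ => rfl) (fun c d h => absurd (Subsingleton.elim _ _) h)
      (finrank K (⊤ : Submodule K (Fin n → K))) ⊤ rfl hnd
      (le_iSup_of_le () (by simp))
  -- rescale
  let b' : Fin m → (Fin n → K) := fun k => (ω (a k) (b k))⁻¹ • b k
  let f : Fin m ⊕ Fin m → (Fin n → K) := Sum.elim a b'
  have hf : ∀ i j, ω (f i) (f j) = jj K m i j := by
    rintro (i | i) (j | j)
    · simp [f, haa, jj]
    · by_cases hij : i = j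
      · subst hij
        simp [f, b', hne i, jj]
      · simp [f, b', hab i j hij, Matrix.one_apply_ne hij, jj]
    · rw [hsk]
      by_cases hij : i = j
      · subst hij
        simp [f, b', hne i, jj]
      · simp [f, b', hab j i (Ne.symm hij), Matrix.one_apply_ne hij, jj]
    · simp [f, b', hbb, jj]
  have hli : LinearIndependent K f := by
    rw [Fintype.linearIndependent_iff]
    intro g hg
    have key : ∀ j, ∑ i, g i * jj K m i j = 0 := by
      intro j
      have := congrArg (fun y => ω y (f j)) hg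
      simp only [map_sum, map_smul, LinearMap.sum_apply, LinearMap.smul_apply, hf, smul_eq_mul,
        map_zero, LinearMap.zero_apply] at this
      exact this
    rintro (i | i)
    · have := key (Sum.inr i)
      rw [Fintype.sum_sum_type] at this
      simpa [Matrix.one_apply, jj] using this
    · have := key (Sum.inl i)
      rw [Fintype.sum_sum_type] at this
      simpa [Matrix.one_apply, jj] using this
  have hspf : ⊤ ≤ Submodule.span K (Set.range f) := by
    refine hsp.trans ?_
    rw [Submodule.span_le]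
    rintro x (⟨k, rfl⟩ | ⟨k, rfl⟩)
    · exact Submodule.subset_span ⟨Sum.inl k, rfl⟩
    · have h1 : b k = (ω (a k) (b k)) • f (Sum.inr k) := by
        simp [f, b', smul_smul, mul_inv_cancel₀ (hne k)]
      rw [h1]
      exact Submodule.smul_mem _ _ (Submodule.subset_span ⟨Sum.inr k, rfl⟩)
  let B : Basis (Fin m ⊕ Fin m) K (Fin n → K) := Basis.mk hli hspf
  have hcard : m + m = n := by
    have h1 := Module.finrank_eq_card_basis B
    simp at h1
    exact h1.symm
  let U : Matrix (Fin n) (Fin n) K := Matrix.of fun i => f ((en hcard).symm i)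
  refine ⟨m, hcard, U, ?_, ?_⟩
  · have h2 : LinearIndependent K (fun i => U i) := by
      have := hli.comp (en hcard).symm (en hcard).symm.injective
      exact this
    have h3 : IsUnit U := Matrix.linearIndependent_rows_iff_isUnit.1 h2
    exact ((Matrix.isUnit_iff_isUnit_det U).1 h3).ne_zero
  · ext i j
    have h4 : (U * A * U.transpose) i j = ω (U i) (U j) := by
      rw [hω, Matrix.mul_assoc, Matrix.mul_apply, dotProduct]
      refine Finset.sum_congr rfl fun k _ => ?_
      congr 1
    rw [h4]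
    have h5 : ω (U i) (U j) = ω (f ((en hcard).symm i)) (f ((en hcard).symm j)) := rfl
    rw [h5, hf]
    rfl

/-- Two nondegenerate alternating matrices of the same size over a field are congruent. -/
theorem darboux {K : Type} [Field K] {n : ℕ} (A B : Matrix (Fin n) (Fin n) K)
    (hA : A.transpose = -A) (hA0 : ∀ i, A i i = 0) (hAd : A.det ≠ 0)
    (hB : B.transpose = -B) (hB0 : ∀ i, B i i = 0) (hBd : B.det ≠ 0) :
    ∃ U : Matrix (Fin n) (Fin n) K, U.det ≠ 0 ∧ U * A * U.transpose = B := by
  obtain ⟨m, h, U, hU, hUA⟩ := canon A hA hA0 hAd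
  obtain ⟨m', h', V, hV, hVB⟩ := canon B hB hB0 hBd
  obtain rfl : m = m' := by omega
  have hVu : IsUnit V.det := isUnit_iff_ne_zero.2 hV
  refine ⟨V⁻¹ * U, ?_, ?_⟩
  · rw [det_mul]
    refine mul_ne_zero ?_ hU
    rw [det_nonsing_inv]
    simpa using hV
  · have e1 : V⁻¹ * U * A * (V⁻¹ * U).transpose = V⁻¹ * (U * A * U.transpose) * (V⁻¹).transpose := by
      rw [transpose_mul]
      simp only [Matrix.mul_assoc]
    rw [e1, hUA, ← hVB]
    have e2 : V.transpose * (V⁻¹).transpose = 1 := by
      rw [← transpose_mul, nonsing_inv_mul V hVu, transpose_one]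
    calc V⁻¹ * (V * B * V.transpose) * (V⁻¹).transpose
        = (V⁻¹ * V) * B * (V.transpose * (V⁻¹).transpose) := by simp only [Matrix.mul_assoc]
      _ = B := by rw [nonsing_inv_mul V hVu, e2, Matrix.one_mul, Matrix.mul_one]

end Pool.Agent.Y122.HPDar
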